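import Pool.Agent.J4H16.LI.Stm2

/-!
# Project LI, part 2 (helper16): the height of an arc (helper2)
-/

set_option autoImplicit false

open Set MeasureTheory

namespace Pool.Agent.J4H2.LI

open Pool.Agent.J4H16.LI

theorem t_G2 : S_G2 := by
  intro F s B Y K R u h hK hF hR
  obtain ⟨hB, hY, hc, hout, hpos, hder⟩ := h
  have hmid : Y / 2 ∈ Ioo (-B) Y := ⟨by linarith, by linarith⟩
  have hR0 : 0 < R := (hpos _ hmid).trans_le (hR _)
  have huY : u Y = 0 := hout Y (fun h => lt_irrefl _ h.2)
  have hd : ∀ y ∈ Ioo (-B) Y, HasDerivAt (fun y => u y ^ 2 / 2 + (Y / 2 - K * R) * y)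
      (-y + (F (u y) + s * u y) + (Y / 2 - K * R)) y := by
    intro y hy
    have h1 : HasDerivAt u (-(y - F (u y) - s * u y) / u y) y := hder y hy
    have hu := hpos y hy
    have h2 := ((h1.pow 2).div_const 2).add ((hasDerivAt_id y).const_mul (Y / 2 - K * R))
    have h3 : -y + (F (u y) + s * u y) + (Y / 2 - K * R) =
        ((2 : ℕ) : ℝ) * u y ^ (2 - 1) * (-(y - F (u y) - s * u y) / u y) / 2 +
          (Y / 2 - K * R) * 1 := by
      have hu' := hu.ne'
      simp only [Nat.cast_ofNat, Nat.add_one_sub_one, pow_one]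
      field_simp
      ring
    rw [h3]
    exact h2
  have hanti : AntitoneOn (fun y => u y ^ 2 / 2 + (Y / 2 - K * R) * y) (Icc (Y / 2) Y) := by
    apply antitoneOn_of_deriv_nonpos (convex_Icc _ _)
    · exact (by fun_prop : Continuous fun y => u y ^ 2 / 2 + (Y / 2 - K * R) * y).continuousOn
    · intro y hy
      rw [interior_Icc] at hy
      exact (hd y ⟨by linarith [hy.1], hy.2⟩).differentiableAt.differentiableWithinAt
    · intro y hy
      rw [interior_Icc] at hy
      rw [(hd y ⟨by linarith [hy.1], hy.2⟩).deriv]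
      have h1 := (abs_le.1 (hF y)).2
      have h2 := mul_le_mul_of_nonneg_left (hR y) hK
      linarith [hy.1]
  have h1 := hanti (left_mem_Icc.2 (by linarith)) (right_mem_Icc.2 (by linarith))
    (by linarith : Y / 2 ≤ Y)
  simp only at h1
  rw [huY] at h1
  have h2 : u (Y / 2) ^ 2 ≤ R ^ 2 := pow_le_pow_left₀ (hpos _ hmid).le (hR _) 2
  by_contra hcon
  push Not at hcon
  have h3 : (K + 1) * R < Y / 2 := by linarith
  have h4 : Y / 2 * (Y / 2) ≤ K * R * (Y / 2) + R ^ 2 / 2 := by nlinarith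
  have h5 : R * R < R * (Y / 2) := by
    apply mul_lt_mul_of_pos_left _ hR0
    nlinarith [mul_nonneg hK hR0.le]
  have h6 : (K + 1) * R * (Y / 2) < Y / 2 * (Y / 2) :=
    mul_lt_mul_of_pos_right h3 (by linarith)
  nlinarith [sq_nonneg R]

end Pool.Agent.J4H2.LI
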