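import Pool.Agent.J4H16.LI.Stm2

/-!
# Project LI, part 2 (helper16): the width of an arc and the area (helper2)
-/

set_option autoImplicit false

open Set MeasureTheory

namespace Pool.Agent.J4H2.LI

open Pool.Agent.J4H16.LI

theorem t_G1 : S_G1 := by
  intro F s B Y K u h hK hF
  obtain ⟨hB, hY, hc, hout, hpos, hder⟩ := h
  have hnn : ∀ y, 0 ≤ u y := by
    intro y
    by_cases hy : y ∈ Ioo (-B) Y
    · exact (hpos y hy).le
    · rw [hout y hy]
  obtain ⟨y0, hy0m, hmax⟩ := (isCompact_Icc (a := -B) (b := Y)).exists_isMaxOn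
    ⟨0, by constructor <;> linarith⟩ hc.continuousOn
  set ρ := u y0 with hρ
  have hle : ∀ y, u y ≤ ρ := by
    intro y
    by_cases hy : y ∈ Icc (-B) Y
    · exact hmax hy
    · rw [hout y (fun h => hy ⟨h.1.le, h.2.le⟩)]
      exact hnn y0
  have hρ0 : 0 < ρ := (hpos 0 ⟨by linarith, by linarith⟩).trans_le (hle 0)
  have hy0 : y0 ∈ Ioo (-B) Y := by
    by_contra hcon
    have := hout y0 hcon
    rw [← hρ] at this
    linarith
  have hd0 : HasDerivAt u (-(y0 - F (u y0) - s * u y0) / u y0) y0 := hder y0 hy0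
  have hloc : IsLocalMax u y0 := Filter.Eventually.of_forall hle
  have h0 := hloc.hasDerivAt_eq_zero hd0
  rw [← hρ] at h0
  have hy0e : y0 = F ρ + s * ρ := by
    rcases div_eq_zero_iff.1 h0 with h | h
    · linarith
    · linarith
  have hy0b : |y0| ≤ K * ρ := by
    rw [hy0e]
    exact hF y0
  set τ := ρ / (8 * (1 + K)) with hτ
  have hK1 : 0 < 1 + K := by linarith
  have hτ0 : 0 < τ := by positivity
  have hτρ : 8 * (1 + K) * τ = ρ := by
    rw [hτ]
    field_simp
  set Cc := τ + 2 * K * ρ with hCc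
  have hCτ : Cc * τ ≤ ρ ^ 2 * (17 / 64) := by
    have e1 : τ ≤ ρ / 8 := by nlinarith [mul_nonneg hK hτ0.le]
    have e2 : 8 * (K * τ) ≤ ρ := by nlinarith
    rw [hCc]
    nlinarith [mul_nonneg hρ0.le hτ0.le, mul_nonneg hK hτ0.le]
  have hd : ∀ y ∈ Ioo (-B) Y, HasDerivAt (fun y => u y ^ 2 / 2) (-y + (F (u y) + s * u y)) y := by
    intro y hy
    have h1 : HasDerivAt u (-(y - F (u y) - s * u y) / u y) y := hder y hy
    have hu := hpos y hy
    have h2 := (h1.pow 2).div_const 2
    have h3 : -y + (F (u y) + s * u y) =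
        ((2 : ℕ) : ℝ) * u y ^ (2 - 1) * (-(y - F (u y) - s * u y) / u y) / 2 := by
      have hu' := hu.ne'
      simp only [Nat.cast_ofNat, Nat.add_one_sub_one, pow_one]
      field_simp
      ring
    rw [h3]
    exact h2
  have hstep : ∀ a b : ℝ, a < b → -B ≤ a → b ≤ Y → y0 - τ ≤ a → b ≤ y0 + τ →
      |u b ^ 2 / 2 - u a ^ 2 / 2| ≤ Cc * (b - a) := by
    intro a b hab ha hb ha' hb'
    obtain ⟨c, hc1, hc2⟩ := exists_hasDerivAt_eq_slope (fun y => u y ^ 2 / 2)
      (fun y => -y + (F (u y) + s * u y)) hab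
      (by fun_prop : Continuous fun y => u y ^ 2 / 2).continuousOn
      (fun x hx => hd x ⟨by linarith [hx.1], by linarith [hx.2]⟩)
    have hba : 0 < b - a := by linarith
    have e1 : u b ^ 2 / 2 - u a ^ 2 / 2 = (-c + (F (u c) + s * u c)) * (b - a) := by
      rw [eq_div_iff hba.ne'] at hc2
      exact hc2.symm
    rw [e1, abs_mul, abs_of_pos hba]
    apply mul_le_mul_of_nonneg_right _ hba.le
    have e2 : |(-c + (F (u c) + s * u c))| ≤ |c - y0| + |y0| + |F (u c) + s * u c| := by
      have e3 : (-c + (F (u c) + s * u c)) = -(c - y0) + -y0 + (F (u c) + s * u c) := by ring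
      rw [e3]
      refine (abs_add_le _ _).trans (add_le_add ((abs_add_le _ _).trans ?_) le_rfl)
      rw [abs_neg, abs_neg]
    have e4 : |c - y0| ≤ τ := by
      rw [abs_le]
      constructor <;> linarith [hc1.1, hc1.2]
    have e5 := hF c
    have e6 := mul_le_mul_of_nonneg_left (hle c) hK
    rw [hCc]
    linarith
  have hlow : ∀ y, |u y ^ 2 / 2 - u y0 ^ 2 / 2| ≤ Cc * τ → ρ / 2 ≤ u y := by
    intro y hy
    have h1 := (abs_le.1 hy).1
    rw [← hρ] at h1
    by_contra hcon
    push Not at hcon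
    have h2 : u y ^ 2 ≤ (ρ / 2) ^ 2 := pow_le_pow_left₀ (hnn y) hcon.le 2
    have h3 : 0 < ρ ^ 2 := by positivity
    nlinarith
  have hCc0 : 0 ≤ Cc := by positivity
  -- the right side
  have hYr : y0 + τ < Y := by
    by_contra hcon
    push Not at hcon
    have h1 := hstep y0 Y hy0.2 hy0.1.le le_rfl (by linarith) hcon
    have h2 : ρ / 2 ≤ u Y := hlow Y (h1.trans (mul_le_mul_of_nonneg_left (by linarith) hCc0))
    rw [hout Y (fun h => lt_irrefl _ h.2)] at h2
    linarith
  have hBl : -B < y0 - τ := by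
    by_contra hcon
    push Not at hcon
    have h1 := hstep (-B) y0 hy0.1 le_rfl hy0.2.le hcon (by linarith)
    rw [abs_sub_comm] at h1
    have h2 : ρ / 2 ≤ u (-B) := hlow (-B) (h1.trans (mul_le_mul_of_nonneg_left (by linarith) hCc0))
    rw [hout (-B) (fun h => lt_irrefl _ h.1)] at h2
    linarith
  have hall : ∀ y ∈ Icc (y0 - τ) (y0 + τ), ρ / 2 ≤ u y := by
    intro y hy
    rcases lt_trichotomy y y0 with h | h | h
    · have h1 := hstep y y0 h (by linarith [hy.1]) hy0.2.le hy.1 (by linarith)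
      rw [abs_sub_comm] at h1
      exact hlow y (h1.trans (mul_le_mul_of_nonneg_left (by linarith [hy.1]) hCc0))
    · rw [h, ← hρ]
      linarith
    · have h1 := hstep y0 y h hy0.1.le (by linarith [hy.2]) (by linarith) hy.2
      exact hlow y (h1.trans (mul_le_mul_of_nonneg_left (by linarith [hy.2]) hCc0))
  have hcs : HasCompactSupport u := HasCompactSupport.intro (isCompact_Icc (a := -B) (b := Y))
    (fun x hx => hout x (fun h => hx ⟨h.1.le, h.2.le⟩))
  have hint : Integrable u := hc.integrable_of_hasCompactSupport hcs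
  have hI1 : ∫ t in Ioc (y0 - τ) (y0 + τ), u t ≤ ∫ t, u t :=
    setIntegral_le_integral hint (Filter.Eventually.of_forall hnn)
  rw [← intervalIntegral.integral_of_le (by linarith)] at hI1
  have hI2 : ∫ _ in (y0 - τ)..(y0 + τ), ρ / 2 ≤ ∫ t in (y0 - τ)..(y0 + τ), u t :=
    intervalIntegral.integral_mono_on (by linarith) intervalIntegrable_const
      (hc.intervalIntegrable _ _) hall
  rw [intervalIntegral.integral_const, smul_eq_mul] at hI2
  have hI3 : τ * ρ ≤ ∫ t, u t := by
    have e : (y0 + τ - (y0 - τ)) * (ρ / 2) = τ * ρ := by ring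
    rw [e] at hI2
    exact hI2.trans hI1
  intro y
  calc u y ^ 2 ≤ ρ ^ 2 := pow_le_pow_left₀ (hnn y) (hle y) 2
    _ = 8 * (1 + K) * (τ * ρ) := by
        rw [← mul_assoc, hτρ]
        ring
    _ ≤ 8 * (1 + K) * ∫ t, u t := mul_le_mul_of_nonneg_left hI3 (by positivity)

end Pool.Agent.J4H2.LI
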